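import Pool.Agent.N939.ME.Stm

/-!
PROJECT ME (helper939), step EN2 (helper163): resolvent formula for the energy.
-/

set_option autoImplicit false
set_option linter.unusedSectionVars false
open MeasureTheory ProbabilityTheory Filter Topology Finset
open scoped Classical

namespace Pool.Agent.N163.ME

open Pool.Agent.N939.ME

/-! ### Finite sums -/

theorem tri_sum (G : ℕ → ℝ) (N : ℕ) :
    ∑ t ∈ range N, ∑ s ∈ range (t + 1), G s = ∑ s ∈ range N, ((N : ℝ) - s) * G s := by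
  induction N with
  | zero => simp
  | succ N ih =>
    rw [sum_range_succ, ih, sum_range_succ _ N, sum_range_succ _ N, ← add_assoc,
      ← sum_add_distrib]
    congr 1
    · refine sum_congr rfl fun s _ => ?_
      push_cast
      ring
    · push_cast
      ring

theorem diag_sum (a : ℕ → ℕ → ℝ) (N : ℕ) :
    ∑ t ∈ range N, ∑ j ∈ range (N - t), a t j =
      ∑ n ∈ range N, ∑ t ∈ range (n + 1), a t (n - t) := by
  induction N with
  | zero => simp
  | succ N ih =>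
    rw [sum_range_succ _ N, sum_range_succ _ N, ← ih]
    have h1 : ∀ t ∈ range N, ∑ j ∈ range (N + 1 - t), a t j =
        ∑ j ∈ range (N - t), a t j + a t (N - t) := by
      intro t ht
      have h2 := mem_range.1 ht
      have h3 : N + 1 - t = (N - t) + 1 := by omega
      rw [h3, sum_range_succ]
    rw [sum_congr rfl h1, sum_add_distrib, sum_range_succ _ N]
    have h4 : N + 1 - N = 1 := by omega
    rw [h4, range_one, sum_singleton, Nat.sub_self]
    ring

theorem comb (F : ℕ → ℕ → ℝ) (N : ℕ) :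
    ∑ t ∈ range N, ∑ j ∈ range (N - t),
        ∑ u ∈ range (t + 1), (1 / ((j : ℝ) + 1 + u)) * F (j + 1 + u) (t - u) =
      ∑ s ∈ range N, ∑ j ∈ range (N - s), F (j + 1) s := by
  rw [diag_sum, diag_sum]
  refine sum_congr rfl fun n _ => ?_
  have h1 : ∀ t ∈ range (n + 1),
      ∑ u ∈ range (t + 1), (1 / (((n - t : ℕ) : ℝ) + 1 + u)) * F (n - t + 1 + u) (t - u) =
      ∑ s ∈ range (t + 1), (1 / ((n : ℝ) + 1 - s)) * F (n + 1 - s) s := by
    intro t ht
    have h2 : t ≤ n := Nat.lt_succ_iff.1 (mem_range.1 ht)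
    rw [← sum_range_reflect]
    refine sum_congr rfl fun s hs => ?_
    have h3 : s ≤ t := Nat.lt_succ_iff.1 (mem_range.1 hs)
    have e1 : n - t + 1 + (t + 1 - 1 - s) = n + 1 - s := by omega
    have e2 : t - (t + 1 - 1 - s) = s := by omega
    have e3 : (((n - t : ℕ) : ℝ) + 1 + ((t + 1 - 1 - s : ℕ) : ℝ)) = (n : ℝ) + 1 - s := by
      rw [Nat.cast_sub h2, Nat.add_sub_cancel, Nat.cast_sub h3]
      ring
    rw [e1, e2, e3]
  rw [sum_congr rfl h1, tri_sum]
  refine sum_congr rfl fun s hs => ?_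
  have h3 : s ≤ n := Nat.lt_succ_iff.1 (mem_range.1 hs)
  have h4 : (s : ℝ) ≤ n := by exact_mod_cast h3
  have h5 : ((n + 1 : ℕ) : ℝ) - s = (n : ℝ) + 1 - s := by push_cast; ring
  have h6 : (n : ℝ) + 1 - s ≠ 0 := by linarith
  have h7 : n - s + 1 = n + 1 - s := by omega
  rw [h5, h7, ← mul_assoc, mul_one_div_cancel h6, one_mul]

/-! ### The measure -/

theorem lam_pow (a : ℕ) : ∫ r, r ^ a ∂lam = 1 / ((a : ℝ) + 1) := by
  unfold lam
  rw [← integral_Ioc_eq_integral_Ioo, ← intervalIntegral.integral_of_le zero_le_one, integral_pow]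
  simp

theorem lam_mem : ∀ᵐ r ∂lam, 0 < r ∧ r < 1 := by
  unfold lam
  filter_upwards [ae_restrict_mem measurableSet_Ioo] with r hr
  exact hr

section Chain

variable {S : Type} [MeasurableSpace S] {ν : Measure S} [IsProbabilityMeasure ν]

theorem nuh_mem : ∀ᵐ p ∂(nuh ν), 0 < p.1 ∧ p.1 < 1 := by
  have h : Measure.QuasiMeasurePreserving (Prod.fst : ℝ × S → ℝ) (nuh ν) lam :=
    Measure.quasiMeasurePreserving_fst
  exact h.ae lam_mem

theorem memLp_snd {K : S → ℝ} (hK : MemLp K 2 ν) : MemLp (fun p : ℝ × S => K p.2) 2 (nuh ν) :=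
  hK.comp_measurePreserving (measurePreserving_snd (μ := lam) (ν := ν))

/-- multiplication with a bounded function -/
theorem memLp_mul {F : ℝ × S → ℝ} {g : ℝ × S → ℝ} (hF : MemLp F 2 (nuh ν)) (hg : Measurable g)
    (hb : ∀ᵐ p ∂(nuh ν), |g p| ≤ 1) : MemLp (fun p => g p * F p) 2 (nuh ν) := by
  refine hF.mono (hg.aestronglyMeasurable.mul hF.1) ?_
  filter_upwards [hb] with p hp
  rw [norm_mul, Real.norm_eq_abs (g p)]
  nlinarith [norm_nonneg (F p)]

theorem memLp_pow {K : S → ℝ} (hK : MemLp K 2 ν) (a : ℕ) :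
    MemLp (fun p : ℝ × S => p.1 ^ a * K p.2) 2 (nuh ν) := by
  refine memLp_mul (memLp_snd hK) (measurable_fst.pow_const a) ?_
  filter_upwards [nuh_mem (ν := ν)] with p hp
  rw [abs_of_nonneg (pow_nonneg hp.1.le _)]
  exact pow_le_one₀ hp.1.le hp.2.le

theorem ind_meas {B : Set S} (hB : MeasurableSet B) :
    Measurable (fun p : ℝ × S => B.indicator (1 : S → ℝ) p.2) :=
  (measurable_one.indicator hB).comp measurable_snd

theorem ind_le (B : Set S) (x : S) : |B.indicator (1 : S → ℝ) x| ≤ 1 := by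
  by_cases h : x ∈ B
  · simp [h]
  · simp [h]

theorem ind_mul (B : Set S) (h : S → ℝ) (x : S) :
    B.indicator (1 : S → ℝ) x * h x = B.indicator h x := by
  by_cases hx : x ∈ B
  · simp [hx]
  · simp [hx]

variable {Q : Kernel S S} [IsMarkovKernel Q] {f : S → ℝ} {B : ℕ → Set S}

theorem Kf_mem (hTT : S_TT) (hinv : ν.bind Q = ν) (hf : Measurable f) (hf2 : MemLp f 2 ν)
    (hB : ∀ t, MeasurableSet (B t)) :
    ∀ j s, Measurable (Kf Q f B j s) ∧ MemLp (Kf Q f B j s) 2 ν := by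
  intro j
  induction j with
  | zero => exact fun s => ⟨hf.indicator (hB s), hf2.indicator (hB s)⟩
  | succ j ih =>
    intro s
    have h := hTT S Q ν hinv
    exact ⟨(h.1 _ (ih (s + 1)).1).indicator (hB s),
      (h.2.2.1 _ (ih (s + 1)).2).1.indicator (hB s)⟩

theorem TT_mem (hTT : S_TT) (hinv : ν.bind Q = ν) (hf : Measurable f) (hf2 : MemLp f 2 ν)
    (hB : ∀ t, MeasurableSet (B t)) (j s : ℕ) :
    Measurable (TT Q (Kf Q f B j s)) ∧ MemLp (TT Q (Kf Q f B j s)) 2 ν := by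
  have h := hTT S Q ν hinv
  have h1 := Kf_mem hTT hinv hf hf2 hB j s
  exact ⟨h.1 _ h1.1, (h.2.2.1 _ h1.2).1⟩

theorem hat_pow (hHAT : S_HAT) (hinv : ν.bind Q = ν) (K : S → ℝ) (a : ℕ) (p : ℝ × S) :
    TT (Qh Q) (fun p => p.1 ^ a * K p.2) p = p.1 ^ a * TT Q K p.2 := by
  obtain ⟨r, x⟩ := p
  rw [(hHAT S Q ν hinv).1]
  simp only [TT]
  rw [integral_const_mul]

theorem Gst_mem (hHAT : S_HAT) (hBK1 : S_BK1) (hinv : ν.bind Q = ν) (hf : Measurable f)
    (hf2 : MemLp f 2 ν) (hB : ∀ t, MeasurableSet (B t)) :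
    ∀ t, Measurable (Gst Q ν f B t) ∧ MemLp (Gst Q ν f B t) 2 (nuh ν) := by
  intro t
  induction t with
  | zero => exact ⟨(hf.indicator (hB 0)).comp measurable_snd, memLp_snd (hf2.indicator (hB 0))⟩
  | succ t ih =>
    have h := hBK1 (ℝ × S) (Qh Q) (nuh ν) (hHAT S Q ν hinv).2
    have hbm := h.2.1 (Gst Q ν f B t)
    have hbl := (h.1 _ ih.2).2.1
    have h1 : MemLp (fun p : ℝ × S => p.1 * bk (Qh Q) (nuh ν) (Gst Q ν f B t) p) 2 (nuh ν) := by
      refine memLp_mul hbl measurable_fst ?_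
      filter_upwards [nuh_mem (ν := ν)] with p hp
      rw [abs_of_pos hp.1]
      exact hp.2.le
    constructor
    · exact (ind_meas (hB (t + 1))).mul ((hf.comp measurable_snd).add (measurable_fst.mul hbm))
    · exact memLp_mul ((memLp_snd hf2).add h1) (ind_meas (hB (t + 1)))
        (ae_of_all _ fun p => ind_le _ _)

/-- the pairing of the backward resolvent with a monomial -/
theorem pair (hHAT : S_HAT) (hTT : S_TT) (hBK1 : S_BK1) (hinv : ν.bind Q = ν) (hf : Measurable f)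
    (hf2 : MemLp f 2 ν) (hB : ∀ t, MeasurableSet (B t)) :
    ∀ (t a b : ℕ), ∫ p, Gst Q ν f B t p * (p.1 ^ a * TT Q (Kf Q f B b (t + 1)) p.2) ∂(nuh ν) =
      ∑ u ∈ range (t + 1),
        (1 / ((a : ℝ) + 1 + u)) * ∫ x, f x * Kf Q f B (b + 1 + u) (t - u) x ∂ν := by
  intro t
  induction t with
  | zero =>
    intro a b
    rw [range_one, sum_singleton]
    have e : ∀ p : ℝ × S, Gst Q ν f B 0 p * (p.1 ^ a * TT Q (Kf Q f B b (0 + 1)) p.2) =
        p.1 ^ a * (f p.2 * Kf Q f B (b + 1) 0 p.2) := by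
      intro p
      show (B 0).indicator f p.2 * (p.1 ^ a * TT Q (Kf Q f B b (0 + 1)) p.2) =
        p.1 ^ a * (f p.2 * (B 0).indicator (TT Q (Kf Q f B b (0 + 1))) p.2)
      by_cases hx : p.2 ∈ B 0
      · rw [Set.indicator_of_mem hx, Set.indicator_of_mem hx]
        ring
      · rw [Set.indicator_of_notMem hx, Set.indicator_of_notMem hx]
        ring
    simp_rw [e]
    have h1 := integral_prod_mul (μ := lam) (ν := ν) (fun r : ℝ => r ^ a)
      (fun x => f x * Kf Q f B (b + 1) 0 x)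
    unfold nuh
    rw [h1, lam_pow]
    simp
  | succ t ih =>
    intro a b
    have h := hBK1 (ℝ × S) (Qh Q) (nuh ν) (hHAT S Q ν hinv).2
    obtain ⟨hGm, hGl⟩ := Gst_mem hHAT hBK1 hinv hf hf2 hB t
    obtain ⟨hbm, hbl, hbk⟩ := h.1 _ hGl
    obtain ⟨hKm, hKl⟩ := Kf_mem hTT hinv hf hf2 hB (b + 1) (t + 1)
    have e : ∀ p : ℝ × S,
        Gst Q ν f B (t + 1) p * (p.1 ^ a * TT Q (Kf Q f B b (t + 1 + 1)) p.2) =
        p.1 ^ a * (f p.2 * Kf Q f B (b + 1) (t + 1) p.2) +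
          bk (Qh Q) (nuh ν) (Gst Q ν f B t) p * (p.1 ^ (a + 1) * Kf Q f B (b + 1) (t + 1) p.2) := by
      intro p
      show ((B (t + 1)).indicator 1 p.2 * (f p.2 + p.1 * bk (Qh Q) (nuh ν) (Gst Q ν f B t) p)) *
          (p.1 ^ a * TT Q (Kf Q f B b (t + 1 + 1)) p.2) =
        p.1 ^ a * (f p.2 * (B (t + 1)).indicator (TT Q (Kf Q f B b (t + 1 + 1))) p.2) +
          bk (Qh Q) (nuh ν) (Gst Q ν f B t) p *
            (p.1 ^ (a + 1) * (B (t + 1)).indicator (TT Q (Kf Q f B b (t + 1 + 1))) p.2)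
      rw [← ind_mul (B (t + 1)) (TT Q (Kf Q f B b (t + 1 + 1))) p.2]
      ring
    simp_rw [e]
    have hF1 : MemLp (fun p : ℝ × S => p.1 ^ (a + 1) * Kf Q f B (b + 1) (t + 1) p.2) 2 (nuh ν) :=
      memLp_pow hKl (a + 1)
    have hF1m : Measurable (fun p : ℝ × S => p.1 ^ (a + 1) * Kf Q f B (b + 1) (t + 1) p.2) :=
      (measurable_fst.pow_const _).mul (hKm.comp measurable_snd)
    have hi1 : Integrable (fun p : ℝ × S => p.1 ^ a * (f p.2 * Kf Q f B (b + 1) (t + 1) p.2))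
        (nuh ν) := by
      have h2 := (memLp_snd hf2).integrable_mul (memLp_pow hKl a)
      refine h2.congr (ae_of_all _ fun p => ?_)
      show f p.2 * (p.1 ^ a * Kf Q f B (b + 1) (t + 1) p.2) = _
      ring
    have hi2 : Integrable (fun p : ℝ × S => bk (Qh Q) (nuh ν) (Gst Q ν f B t) p *
        (p.1 ^ (a + 1) * Kf Q f B (b + 1) (t + 1) p.2)) (nuh ν) := hbl.integrable_mul hF1
    rw [integral_add hi1 hi2, hbk _ hF1m hF1]
    simp_rw [hat_pow hHAT hinv]
    rw [ih (a + 1) (b + 1)]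
    have h1 : ∫ p, p.1 ^ a * (f p.2 * Kf Q f B (b + 1) (t + 1) p.2) ∂(nuh ν) =
        (1 / ((a : ℝ) + 1)) * ∫ x, f x * Kf Q f B (b + 1) (t + 1) x ∂ν := by
      have h1 := integral_prod_mul (μ := lam) (ν := ν) (fun r : ℝ => r ^ a)
        (fun x => f x * Kf Q f B (b + 1) (t + 1) x)
      unfold nuh
      rw [h1, lam_pow]
    rw [h1, sum_range_succ' _ (t + 1), add_comm]
    congr 1
    · refine sum_congr rfl fun u _ => ?_
      have e1 : b + 1 + 1 + u = b + 1 + (u + 1) := by ring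
      have e2 : t - u = t + 1 - (u + 1) := by omega
      rw [e1, e2]
      push_cast
      congr 2
      ring
    · simp

/-- the forward resolvent as a polynomial -/
theorem hat_sum (hHAT : S_HAT) (hTT : S_TT) (hinv : ν.bind Q = ν) {K : ℕ → S → ℝ}
    (hK : ∀ j, MemLp (K j) 2 ν) (i : ℕ) :
    TT (Qh Q) (fun p => ∑ j ∈ range i, p.1 ^ j * K j p.2) =ᵐ[nuh ν]
      fun p => ∑ j ∈ range i, p.1 ^ j * TT Q (K j) p.2 := by
  have h := hTT (ℝ × S) (Qh Q) (nuh ν) (hHAT S Q ν hinv).2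
  have hint : ∀ j, Integrable (fun p : ℝ × S => p.1 ^ j * K j p.2) (nuh ν) := fun j =>
    (memLp_pow (hK j) j).integrable (by norm_num)
  induction i with
  | zero =>
    refine ae_of_all _ fun p => ?_
    simp [TT]
  | succ i ih =>
    have h1 : (fun p : ℝ × S => ∑ j ∈ range (i + 1), p.1 ^ j * K j p.2) =
        fun p => (∑ j ∈ range i, p.1 ^ j * K j p.2) + p.1 ^ i * K i p.2 := by
      funext p
      rw [sum_range_succ]
    rw [h1]
    have h2 := h.2.2.2.2.2 (fun p : ℝ × S => ∑ j ∈ range i, p.1 ^ j * K j p.2)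
      (fun p => p.1 ^ i * K i p.2) (integrable_finsetSum _ fun j _ => hint j) (hint i)
    filter_upwards [h2, ih] with p hp1 hp2
    rw [hp1, hp2, sum_range_succ, hat_pow hHAT hinv]

theorem gam_eq (hHAT : S_HAT) (hTT : S_TT) (hinv : ν.bind Q = ν) (hf : Measurable f)
    (hf2 : MemLp f 2 ν) (hB : ∀ t, MeasurableSet (B t)) :
    ∀ i z : ℕ, gam Q f B i z =ᵐ[nuh ν] (fun p => ∑ j ∈ range i, p.1 ^ j * Kf Q f B j z p.2) ∧
      TT (Qh Q) (gam Q f B i z) =ᵐ[nuh ν]
        fun p => ∑ j ∈ range i, p.1 ^ j * TT Q (Kf Q f B j z) p.2 := by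
  have h := hTT (ℝ × S) (Qh Q) (nuh ν) (hHAT S Q ν hinv).2
  have hK := fun z j => (Kf_mem hTT hinv hf hf2 hB j z).2
  intro i
  induction i with
  | zero =>
    intro z
    constructor
    · refine ae_of_all _ fun p => ?_
      simp [gam]
    · refine ae_of_all _ fun p => ?_
      simp [gam, TT]
  | succ i ih =>
    intro z
    have h1 : gam Q f B (i + 1) z =ᵐ[nuh ν]
        fun p => ∑ j ∈ range (i + 1), p.1 ^ j * Kf Q f B j z p.2 := by
      filter_upwards [(ih (z + 1)).2] with p hp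
      show (B z).indicator 1 p.2 * (f p.2 + p.1 * TT (Qh Q) (gam Q f B i (z + 1)) p) = _
      rw [hp, sum_range_succ']
      have e0 : p.1 ^ 0 * Kf Q f B 0 z p.2 = (B z).indicator 1 p.2 * f p.2 := by
        rw [pow_zero, one_mul]
        show (B z).indicator f p.2 = _
        rw [← ind_mul]
      rw [e0, mul_add, add_comm, mul_sum, mul_sum]
      congr 1
      refine sum_congr rfl fun j _ => ?_
      show _ = p.1 ^ (j + 1) * (B z).indicator (TT Q (Kf Q f B j (z + 1))) p.2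
      rw [← ind_mul (B z) (TT Q (Kf Q f B j (z + 1))) p.2]
      ring
    exact ⟨h1, (h.2.2.2.1 _ _ h1).trans (hat_sum hHAT hTT hinv (hK z) (i + 1))⟩

end Chain

/-- **EN2.** -/
theorem en2 (hHAT : S_HAT) (hTT : S_TT) (hBK1 : S_BK1) : S_EN2 := by
  intro S _ Q _ ν _ hinv f hf hf2 B hB N
  unfold enu
  congr 2
  have h1 : ∀ t ∈ range (N - 1),
      ∫ p, Gst Q ν f B t p * TT (Qh Q) (gam Q f B (N - 1 - t) (t + 1)) p ∂(nuh ν) =
      ∑ j ∈ range (N - 1 - t), ∑ u ∈ range (t + 1),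
        (1 / ((j : ℝ) + 1 + u)) * ∫ x, f x * Kf Q f B (j + 1 + u) (t - u) x ∂ν := by
    intro t _
    obtain ⟨hGm, hGl⟩ := Gst_mem hHAT hBK1 hinv hf hf2 hB t
    have e1 : ∫ p, Gst Q ν f B t p * TT (Qh Q) (gam Q f B (N - 1 - t) (t + 1)) p ∂(nuh ν) =
        ∫ p, ∑ j ∈ range (N - 1 - t),
          Gst Q ν f B t p * (p.1 ^ j * TT Q (Kf Q f B j (t + 1)) p.2) ∂(nuh ν) := by
      refine integral_congr_ae ?_
      filter_upwards [(gam_eq hHAT hTT hinv hf hf2 hB (N - 1 - t) (t + 1)).2] with p hp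
      rw [hp, mul_sum]
    rw [e1, integral_finsetSum]
    · exact sum_congr rfl fun j _ => pair hHAT hTT hBK1 hinv hf hf2 hB t j j
    · intro j _
      exact hGl.integrable_mul (memLp_pow (TT_mem hTT hinv hf hf2 hB j (t + 1)).2 j)
  rw [sum_congr rfl h1, comb fun m s => ∫ x, f x * Kf Q f B m s x ∂ν]
  rcases Nat.eq_zero_or_pos N with h0 | h0
  · subst h0
    simp
  · obtain ⟨M, rfl⟩ : ∃ M, N = M + 1 := ⟨N - 1, by omega⟩
    rw [Nat.add_sub_cancel, sum_range_succ]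
    simp

end Pool.Agent.N163.ME
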