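import Pool.Agent.N939.ME.Stm3

/-!
PROJECT ME (helper939), step ME34 (helper163): forward and backward resolvents from the square
root conditions.
-/

set_option autoImplicit false
set_option linter.unusedSectionVars false
set_option linter.unusedVariables false
open MeasureTheory ProbabilityTheory Filter Topology Finset
open scoped Classical

namespace Pool.Agent.N163.ME

open Pool.Agent.N939.ME

/-- from additivity to subtractivity -/
theorem sub_of_add {T : Type} [MeasurableSpace T] (μ : Measure T) (P : (T → ℝ) → (T → ℝ))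
    (hadd : ∀ h h' : T → ℝ, MemLp h 2 μ → MemLp h' 2 μ →
      P (fun x => h x + h' x) =ᵐ[μ] fun x => P h x + P h' x)
    (h h' : T → ℝ) (hh : MemLp h 2 μ) (hh' : MemLp h' 2 μ) :
    P (fun p => h p - h' p) =ᵐ[μ] fun p => P h p - P h' p := by
  have h1 := hadd (fun p => h p - h' p) h' (hh.sub hh') hh'
  have h2 : (fun x => (fun p => h p - h' p) x + h' x) = h := by
    funext x
    simp
  rw [h2] at h1
  filter_upwards [h1] with p hp
  rw [hp]
  ring

/-- iterates of a contraction -/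
theorem iter_le {S : Type} [MeasurableSpace S] (ν : Measure S) (O : (S → ℝ) → (S → ℝ))
    (hO : ∀ h : S → ℝ, MemLp h 2 ν → MemLp (O h) 2 ν ∧ ∫ x, O h x ^ 2 ∂ν ≤ ∫ x, h x ^ 2 ∂ν)
    (f : S → ℝ) (hf : MemLp f 2 ν) (j : ℕ) :
    MemLp (O^[j] f) 2 ν ∧ ∫ x, O^[j] f x ^ 2 ∂ν ≤ ∫ x, f x ^ 2 ∂ν := by
  induction j with
  | zero => exact ⟨hf, le_refl _⟩
  | succ j ih =>
    rw [Function.iterate_succ_apply']
    exact ⟨(hO _ ih.1).1, (hO _ ih.1).2.trans ih.2⟩

theorem TT_smul {S : Type} [MeasurableSpace S] (Q : Kernel S S) (h : S → ℝ) (c : ℝ) :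
    TT Q (fun x => c * h x) = fun x => c * TT Q h x := by
  funext x
  exact integral_const_mul c _

/-- **SQF.** -/
theorem sqf (hHAT : S_HAT) (hTT : S_TT) (hOPF : S_OPF) (hRS2 : S_RS2) (hPB : S_PB) : S_SQF := by
  intro S _ Q _ ν _ hinv δ hδ f g hf hf2 hg hg2 hlim
  have hT := hTT S Q ν hinv
  have hTh := hTT (ℝ × S) (Qh Q) (nuh ν) (hHAT S Q ν hinv).2
  have hO : ∀ h : S → ℝ, MemLp h 2 ν →
      MemLp (TT Q h) 2 ν ∧ ∫ x, TT Q h x ^ 2 ∂ν ≤ ∫ x, h x ^ 2 ∂ν := fun h hh =>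
    ⟨(hT.2.2.1 h hh).1, (hT.2.2.1 h hh).2.1⟩
  have hm : ∀ n, Measurable ((TT Q)^[n] f) := by
    intro n
    induction n with
    | zero => exact hf
    | succ n ih =>
      rw [Function.iterate_succ_apply']
      exact hT.1 _ ih
  have hadd : ∀ h h' : S → ℝ, MemLp h 2 ν → MemLp h' 2 ν →
      TT Q (fun x => h x + h' x) =ᵐ[ν] fun x => TT Q h x + TT Q h' x := fun h h' hh hh' =>
    hT.2.2.2.2.2 h h' (hh.integrable (by norm_num)) (hh'.integrable (by norm_num))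
  have haddh : ∀ h h' : ℝ × S → ℝ, MemLp h 2 (nuh ν) → MemLp h' 2 (nuh ν) →
      TT (Qh Q) (fun x => h x + h' x) =ᵐ[nuh ν] fun x => TT (Qh Q) h x + TT (Qh Q) h' x :=
    fun h h' hh hh' =>
    hTh.2.2.2.2.2 h h' (hh.integrable (by norm_num)) (hh'.integrable (by norm_num))
  have hC := hOPF δ hδ S ν (TT Q) hT.2.2.2.1 hO hadd
    (fun h c _ => by rw [TT_smul]) f g hf2 hg2 hm hlim
  have hit := fun j => iter_le ν (TT Q) hO f hf2 j
  have h := hRS2 S ν (fun j => (TT Q)^[j] f) (TT (Qh Q)) hm (fun j => (hit j).1)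
    ⟨∫ x, f x ^ 2 ∂ν, fun j => (hit j).2⟩ hC
    (fun h hh hhm => ⟨hTh.1 h hhm, (hTh.2.2.1 h hh).1, (hTh.2.2.1 h hh).2.1⟩)
    (fun h h' hh _ hh' _ => sub_of_add (nuh ν) (TT (Qh Q)) haddh h h' hh hh')
    (fun h R _ _ => by
      refine ae_of_all _ fun p => ?_
      obtain ⟨r, x⟩ := p
      show TT (Qh Q) (fun p => (Set.Iio R).indicator 1 p.1 * h p) (r, x) =
        (Set.Iio R).indicator 1 r * TT (Qh Q) h (r, x)
      rw [(hHAT S Q ν hinv).1, (hHAT S Q ν hinv).1]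
      exact integral_const_mul ((Set.Iio R).indicator (1 : ℝ → ℝ) r) (fun y => h (r, y)))
    (fun n => by
      refine ((hPB S Q ν hinv).2.2.2 (fun j => (TT Q)^[j] f) n fun j => (hit j).1).trans ?_
      refine ae_of_all _ fun p => ?_
      refine sum_congr rfl fun j _ => ?_
      show p.1 ^ j * TT Q ((TT Q)^[j] f) p.2 = p.1 ^ j * (TT Q)^[j + 1] f p.2
      rw [Function.iterate_succ_apply'])
  exact h

/-- **SQB.** -/
theorem sqb (hHAT : S_HAT) (hTT : S_TT) (hBK1 : S_BK1) (hOPF : S_OPF) (hRS2 : S_RS2)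
    (hPB : S_PB) : S_SQB := by
  intro S _ Q _ ν _ hinv δ hδ f b hf hf2 hb hb2 hadj hlim
  have hB := hBK1 S Q ν hinv
  have hBh := hBK1 (ℝ × S) (Qh Q) (nuh ν) (hHAT S Q ν hinv).2
  have hO : ∀ h : S → ℝ, MemLp h 2 ν →
      MemLp (bk Q ν h) 2 ν ∧ ∫ x, bk Q ν h x ^ 2 ∂ν ≤ ∫ x, h x ^ 2 ∂ν := fun h hh =>
    ⟨(hB.1 h hh).2.1, hB.2.2.2.1 h hh⟩
  have hm : ∀ n, Measurable ((bk Q ν)^[n] f) := by
    intro n
    induction n with
    | zero => exact hf
    | succ n ih =>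
      rw [Function.iterate_succ_apply']
      exact hB.2.1 _
  obtain ⟨-, -, huniq, -, -, hadd, hsmul, hcongr, -⟩ := hB
  obtain ⟨hbkh, hmh, -, hleh, -, haddh, -, -, -⟩ := hBh
  have hB1 := (hBK1 S Q ν hinv).1
  -- `b n` are the iterates
  have hbn : ∀ n, b n =ᵐ[ν] (bk Q ν)^[n] (b 0) := by
    intro n
    induction n with
    | zero => exact Filter.EventuallyEq.refl _ _
    | succ n ih =>
      rw [Function.iterate_succ_apply']
      have h1 : IsBk Q ν (b n) (b (n + 1)) := ⟨hb _, hb2 _, fun h hh hh2 => hadj n h hh hh2⟩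
      exact (huniq _ _ _ h1 (hB1 (b n) (hb2 n))).trans (hcongr _ _ ih)
  have hlim' : Tendsto (fun N : ℕ =>
      ∫ x, (b 0 x - ∑ n ∈ range N, δ n * (bk Q ν)^[n + 1] (b 0) x - f x) ^ 2 ∂ν)
      atTop (𝓝 0) := by
    refine hlim.congr fun N => ?_
    refine integral_congr_ae ?_
    have h1 : ∀ᵐ x ∂ν, ∀ n, b n x = (bk Q ν)^[n] (b 0) x := ae_all_iff.2 hbn
    filter_upwards [h1] with x hx
    rw [sum_congr rfl fun n _ => by rw [hx (n + 1)]]
  have hC := hOPF δ hδ S ν (bk Q ν) hcongr hO hadd hsmul f (b 0) hf2 (hb2 0) hm hlim'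
  have hit := fun j => iter_le ν (bk Q ν) hO f hf2 j
  have h := hRS2 S ν (fun j => (bk Q ν)^[j] f) (bk (Qh Q) (nuh ν)) hm (fun j => (hit j).1)
    ⟨∫ x, f x ^ 2 ∂ν, fun j => (hit j).2⟩ hC
    (fun h hh hhm => ⟨hmh h, (hbkh h hh).2.1, hleh h hh⟩)
    (fun h h' hh _ hh' _ => sub_of_add (nuh ν) (bk (Qh Q) (nuh ν)) haddh h h' hh hh')
    (fun h R hh _ => (hPB S Q ν hinv).1 ((Set.Iio R).indicator 1) h
      (measurable_one.indicator measurableSet_Iio)
      ⟨1, fun r => by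
        by_cases hr : r ∈ Set.Iio R
        · rw [Set.indicator_of_mem hr]; simp
        · rw [Set.indicator_of_notMem hr]; simp⟩ hh)
    (fun n => by
      refine ((hPB S Q ν hinv).2.2.1 (fun j => (bk Q ν)^[j] f) n fun j => (hit j).1).trans ?_
      refine ae_of_all _ fun p => ?_
      refine sum_congr rfl fun j _ => ?_
      show p.1 ^ j * bk Q ν ((bk Q ν)^[j] f) p.2 = p.1 ^ j * (bk Q ν)^[j + 1] f p.2
      rw [Function.iterate_succ_apply'])
  exact h

end Pool.Agent.N163.ME
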